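import Pool.Agent.Q59.TR.Pad
import Pool.Agent.TH216.EP.Fin
import Pool.Agent.W195.PZ.Null

/-! # Denef's question with orders: stably sparse polynomials and compositions, every prime -/

set_option autoImplicit false

namespace Pool.Agent.Q300.DP

open MvPolynomial Pool.Agent.W206.CU Pool.Agent.Y229.PA
open Pool.Agent.H628R4.TP (IsBFunction)
open Pool.Agent.W427.SMC (igusaZeta)

/-- For every pole `T₀` of the Poincaré series, its order is at most the multiplicity of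
`-log |T₀| / log p` as a root of every `b ≠ 0` with `b(s) f ^ s = P(s) f ^ (s + 1)`. -/
def DenefOrd (p : ℕ) {V : Type} (F : MvPolynomial V ℤ) : Prop :=
  ∀ (T₀ : ℂ) (r : ℕ), 0 < r → IsPoleOfOrder (poincare p F) T₀ r → ∀ b : Polynomial ℂ, b ≠ 0 →
    IsBFunction (map (Int.castRingHom ℂ) F) b →
      r ≤ b.rootMultiplicity ((-Real.log ‖T₀‖ / Real.log p : ℝ) : ℂ)

theorem follow_ord {n : ℕ} {f : MvPolynomial (Fin n) ℤ} (hf : f ≠ 0) {V : Type} [Finite V] {κ : ℕ}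
    {F : MvPolynomial V ℤ} (hfol : Follow f V κ F) (hκ : 1 ≤ κ) (p : ℕ) [hp : Fact p.Prime]
    (h : DenefOrd p F) : DenefOrd p f := by
  intro T₀ r hr hT b hb0 hb
  obtain ⟨Z, s₀, hZ, hZi, hZo, hre⟩ := Pool.Agent.W425.PZ.pole_of_poincare p f
    (Pool.Agent.W195.PZ.null hf) hr hT
  have hneg := re_neg_of_pole p f hZi hZo
  rw [hre] at hneg
  have hp1 : (1 : ℝ) < p := by exact_mod_cast hp.out.one_lt
  have hp0 : (p : ℂ) ≠ 0 := by exact_mod_cast hp.out.ne_zero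
  have hT0 := pole_ne_zero hr hT
  obtain ⟨r', hr', h1⟩ := pole_transfer (inv_ne_zero hp0) (pow_ne_zero κ (inv_ne_zero hp0))
    (d := 1 - (p : ℂ)⁻¹) (by
      rw [sub_ne_zero]
      intro h2
      have h3 : (p : ℂ) = 1 := by
        rw [← inv_inv (p : ℂ), ← h2, inv_one]
      have h4 : (p : ℝ) = 1 := by exact_mod_cast h3
      linarith) (poincare_eq hfol p) hr hT
  have hX : (Polynomial.X + 1 : Polynomial ℂ) ≠ 0 := Polynomial.X_add_C_ne_zero 1
  have hcb : b.comp (Polynomial.X + Polynomial.C (κ : ℂ)) ≠ 0 := comp_ne_zero hb0 _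
  have h2 := h _ r' (by omega) h1 _ (mul_ne_zero hX hcb) (isBFunction_of_bs1 (hfol.1 b hb))
  have h3 : -Real.log ‖T₀ / ((p : ℂ)⁻¹) ^ κ‖ / Real.log p =
      -Real.log ‖T₀‖ / Real.log p - κ := by
    have hlog : Real.log p ≠ 0 := (Real.log_pos hp1).ne'
    rw [norm_div, norm_pow, norm_inv, Complex.norm_natCast, inv_pow, div_inv_eq_mul,
      Real.log_mul (norm_ne_zero_iff.2 hT0) (by positivity), Real.log_pow]
    field_simp
    ring
  rw [h3] at h2
  set t₀ : ℝ := -Real.log ‖T₀‖ / Real.log p with ht₀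
  have hκ' : (1 : ℝ) ≤ κ := by exact_mod_cast hκ
  have hcast : ((t₀ - κ : ℝ) : ℂ) = (t₀ : ℂ) - κ := by
    push_cast
    rfl
  have hm : (Polynomial.X + 1 : Polynomial ℂ).rootMultiplicity ((t₀ : ℂ) - κ) = 0 := by
    apply Polynomial.rootMultiplicity_eq_zero
    intro hroot
    rw [Polynomial.IsRoot.def] at hroot
    simp only [Polynomial.eval_add, Polynomial.eval_X, Polynomial.eval_one] at hroot
    have h4 := congrArg Complex.re hroot
    simp only [Complex.add_re, Complex.sub_re, Complex.ofReal_re, Complex.natCast_re,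
      Complex.one_re, Complex.zero_re] at h4
    linarith
  rw [hcast, Polynomial.rootMultiplicity_mul (mul_ne_zero hX hcb), rootMultiplicity_comp,
    sub_add_cancel, hm, zero_add] at h2
  exact hr'.trans h2

theorem ord_rename {V W : Type} [Finite V] [Finite W] (e : V ≃ W) (p : ℕ)
    {F : MvPolynomial V ℤ} (h : DenefOrd p (renameEquiv ℤ e F)) : DenefOrd p F := by
  intro T₀ r hr hT b hb0 hb
  refine h T₀ r hr ?_ b hb0 ?_
  · rwa [poincare_iso]
  · rw [map_renameEquiv]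
    exact isBFunction_iso _ hb

/-- polynomials with affinely independent exponents -/
theorem sparse_ord {V : Type} [Fintype V] {r : ℕ} (hr : 2 ≤ r) (v : Fin r → V → ℕ)
    (hv : AffineIndependent ℚ (fun (j : Fin r) (i : V) => (v j i : ℚ)))
    (a : Fin r → ℤ) (ha : ∀ j, a j ≠ 0) (p : ℕ) (hp : p.Prime) : DenefOrd p (spaV v a) := by
  classical
  set e : V ≃ Fin (Fintype.card V) := Fintype.equivFin V with he
  have hv' : AffineIndependent ℚ
      (fun (j : Fin r) (i : Fin (Fintype.card V)) => (v j (e.symm i) : ℚ)) :=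
    (AffineEquiv.affineIndependent_iff
      (LinearEquiv.funCongrLeft ℚ ℚ e.symm).toAffineEquiv).2 hv
  have hf : renameEquiv ℤ e (spaV v a) =
      ∑ j, C (a j) * ∏ i, X i ^ v j (e.symm i) := by
    rw [renameEquiv_apply]
    unfold spaV
    rw [map_sum]
    refine Finset.sum_congr rfl fun j _ => ?_
    rw [map_mul, rename_C, map_prod]
    congr 1
    rw [← Equiv.prod_comp e]
    refine Finset.prod_congr rfl fun i _ => ?_
    rw [map_pow, rename_X, Equiv.symm_apply_apply]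
  refine ord_rename e p fun T₀ μ hμ hP b hb0 hb => ?_
  exact Pool.Agent.TH216.EP.indEP hr (fun j i => v j (e.symm i)) hv' a ha _ hf hp T₀ μ hμ hP b
    hb0 hb

/-- the transfer -/
theorem transfer_ord {n κ : ℕ} {f : MvPolynomial (Fin n) ℤ} (hf : f ≠ 0) (hκ : 1 ≤ κ) {V : Type}
    [Finite V]
    (φ : MvPolynomial ((Fin n ⊕ Unit) ⊕ (Fin κ ⊕ Fin κ)) ℤ ≃ₐ[ℤ] MvPolynomial V ℤ) (p : ℕ)
    [hp : Fact p.Prime] (h : DenefOrd p (φ (stabS (uf f) κ))) : DenefOrd p f :=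
  follow_ord hf (follow_stab hf φ) hκ p h

theorem main :
    -- the transfer, for every prime
    (∀ (n κ : ℕ) (f : MvPolynomial (Fin n) ℤ), f ≠ 0 → 1 ≤ κ → ∀ (V : Type) [Finite V]
      (φ : MvPolynomial ((Fin n ⊕ Unit) ⊕ (Fin κ ⊕ Fin κ)) ℤ ≃ₐ[ℤ] MvPolynomial V ℤ)
      (p : ℕ) [Fact p.Prime], DenefOrd p (φ (stabS (uf f) κ)) → DenefOrd p f) ∧
    -- stably sparse polynomials, every prime
    (∀ (n κ r : ℕ) (f : MvPolynomial (Fin n) ℤ), f ≠ 0 → 1 ≤ κ → 2 ≤ r →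
      ∀ (V : Type) [Fintype V] (v : Fin r → V → ℕ),
      AffineIndependent ℚ (fun (j : Fin r) (i : V) => (v j i : ℚ)) →
      ∀ a : Fin r → ℤ, (∀ j, a j ≠ 0) →
      ∀ φ : MvPolynomial ((Fin n ⊕ Unit) ⊕ (Fin κ ⊕ Fin κ)) ℤ ≃ₐ[ℤ] MvPolynomial V ℤ,
      φ (stabS (uf f) κ) = spaV v a → ∀ p : ℕ, p.Prime → DenefOrd p f) ∧
    -- compositions, every prime
    (∀ (n κ r : ℕ) (Φ : MvPolynomial (Fin n ⊕ Fin κ) ℤ) (q : Fin κ → MvPolynomial (Fin n) ℤ),
      aeval (Sum.elim X q) Φ ≠ 0 → 1 ≤ κ → 2 ≤ r →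
      ∀ v : Fin r → (Fin n ⊕ Unit) ⊕ (Fin κ ⊕ Fin κ) → ℕ,
      AffineIndependent ℚ
        (fun (j : Fin r) (i : (Fin n ⊕ Unit) ⊕ (Fin κ ⊕ Fin κ)) => (v j i : ℚ)) →
      ∀ a : Fin r → ℤ, (∀ j, a j ≠ 0) → graphU Φ q = spaV v a →
      ∀ p : ℕ, p.Prime → DenefOrd p (aeval (Sum.elim X q) Φ)) := by
  refine ⟨fun n κ f hf hκ V _ φ p _ h => transfer_ord hf hκ φ p h, ?_, ?_⟩
  · intro n κ r f hf hκ hr V _ v hv a ha φ hφ p hp
    have : Fact p.Prime := ⟨hp⟩
    refine transfer_ord hf hκ φ p ?_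
    rw [hφ]
    exact sparse_ord hr v hv a ha p hp
  · intro n κ r Φ q hf hκ hr v hv a ha hG p hp
    have : Fact p.Prime := ⟨hp⟩
    obtain ⟨φ, hφ⟩ := graphU_iso Φ q
    refine transfer_ord hf hκ φ p ?_
    rw [hφ, hG]
    exact sparse_ord hr v hv a ha p hp

end Pool.Agent.Q300.DP
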